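import Pool.Agent.V7H53.GG.Crit

/-!
# MP_4e64b4_nt: one level decides whether `μ` vanishes in a Galois extension of number fields

Let `p` be an odd prime, and let `R m` be the subfield of degree `p ^ m` of the field of the roots of
unity of order `p ^ (m + 1)`. Number fields are subfields `F` of finite degree of the field of
algebraic numbers, and `F ⊔ R m` is the `m`-th layer of the cyclotomic `ℤ_p`-extension of `F` (up to
a shift). Let `S` be a set of prime numbers which contains `p` (for the problem: a finite set), and
let `r_m(F)` be the `p`-rank of the Galois group of the maximal abelian extension of `F ⊔ R m`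
unramified at the finite primes outside `S` (archimedean places do not matter, as `p` is odd).
`PRankLe` says that it is at most `r`, and `PRankGe` that it is at least `r`.

If `S` is finite and contains `p`, and `X` is the Iwasawa module of the problem, then
`r_m(F) - 1 = dim X / (p, ω_m) X`, where `ω_m = (1 + T) ^ (p ^ m) - 1` (up to the shift of the levels). So
for totally real `F`, by Nakayama's lemma, `μ_p(F) = 0` if and only if the numbers `r_m(F)` are bounded
(`Bdd p S R F`). These facts are not used and not proved here.

Let `k ≤ F ≤ N` be number fields with `F / k` and `N / k` Galois (`StableOver`), let `F'` be a largest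
field between `F` and `N` which is Galois over `k` and of degree a power of `p` over `F` (`IsPLayer`),
and let `d` be a lower bound for the dimensions of the irreducible representations of `Gal(N / k)`
over `𝔽_p` which are not trivial on `Gal(N / F)` (`DimGe`; the order of the group may be divisible by
`p`). `GapAt p S R F' N d m` is the inequality

  `r_m(N) ≥ r_m(F') + d [N R_m : N]`.
-/

set_option autoImplicit false

namespace Pool.Agent.Results.MP_4e64b4_nt.GrowthGapH53

open Module IntermediateField Pool.Agent.Q60.MU Pool.Agent.V7H44.MF Pool.Agent.V7H53.TR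
open Pool.Agent.V7H53.GG

/-- **One level decides.** Let `k ≤ F ≤ N` be number fields, `F / k` and `N / k` Galois.

(1) There is a largest layer `F'` of `p`-power degree over `F`, Galois over `k`, in `N`.

(2) `MainPart`. For all such `F'` and `d` as above:
(a) if `r_m(N) < r_m(F') + d [N R_m : N]` for a single level `m`, then there is a constant `b` with
  `r_M(N) ≤ r_M(F') + b` for all levels `M` (no assumption on `F`);
(b) if `d > 0`, then the ranks of `N` are bounded (`μ = 0` for `N`) if and only if those of `F` are
  bounded and `r_m(N) < r_m(F') + d [N R_m : N]` for at least one `m`;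
(c) if `μ = 0` for `F`, but not for some subfield `E` of `N`, then
  `r_m(N) ≥ r_m(F') + d [N R_m : N]` for all levels `m ≥ 0`;
(d) if `μ = 0` for `F` and `r_m(N) ≤ d [N R_m : N]` for a single level `m`, then `μ = 0` for all the
  subfields of `N`.

(3) `RealPart`. Given the theorem of Ferrero and Washington (`μ_p = 0` for totally real abelian
fields, stated as a hypothesis), let `N` be totally real and `F` abelian over `ℚ` (for instance
`F = ℚ`). Then all subfields `E` of `N` are totally real, and for each of them `μ_p(E) = 0`, unless
`r_m(N) ≥ r_m(F') + d [N R_m : N]` for all levels `m`; and for `d > 0` we have `μ_p(N) = 0` if and only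
if this inequality fails for some `m`.

(4) `DimPart`. The value `d = 1` is always allowed. If `Gal(N / F)` is perfect, then `F' = F` and
`d = 2` are allowed. If no field strictly between `F` and `N` is Galois over `k` and the prime `ℓ ≠ p`
divides `[N : F]`, then `F' = F` is allowed and `d` can be the order of `p` modulo `ℓ`. -/
theorem result (p : ℕ) [Fact p.Prime] (hp2 : p ≠ 2) (S : Set ℕ) (hS : p ∈ S)
    (R : ℕ → IntermediateField ℚ Qb) (hR : IsCyclotomicTower p R)
    (k F N : IntermediateField ℚ Qb) (h : IsGaloisPair k F N) :
    (∃ F', IsPLayer p k F N F') ∧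
    (∀ F', IsPLayer p k F N F' → ∀ d, DimGe p k F N d →
      MainPart p S R F N F' d ∧ RealPart p S R F N F' d) ∧
    DimPart p k F N := by
  obtain ⟨hN, hkF, hFN, hFk, hNk⟩ := h
  have gap : ∀ F', IsPLayer p k F N F' → ∀ d, DimGe p k F N d → Bdd p S R F → ∀ E ≤ N,
      ¬ Bdd p S R E → ∀ m, GapAt p S R F' N d m := by
    intro F' hF' d hd hF E hE hnE m
    by_contra hgap
    exact hnE (bdd_sub hR hN hE
      ((layer_level hp2 hS hR hN hkF hNk hF' hd hgap).bdd (layer_bdd hp2 hR hN hkF hF' hF)))
  have hex : ∃ F', IsPLayer p k F N F' := by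
    obtain ⟨F', h1, h2, h3, h4, h5⟩ := exists_layer (p := p) hN hFN hFk
    exact ⟨F', h1, h2, h3, h4, h5⟩
  refine ⟨hex, fun F' hF' d hd => ⟨⟨fun m hm =>
    layer_level hp2 hS hR hN hkF hNk hF' hd hm, fun hd0 =>
    criterion hp2 hS hR hN hkF hNk hF' hd hd0, gap F' hF' d hd, fun hF m n hn hr E hE =>
    bdd_sub hR hN hE (numerical hp2 hS hR hN hkF hNk hF' hd hF hn hr)⟩, fun hab hNr hFa => ?_⟩,
    dim_one k F N, fun hper => ⟨IsPLayer.self hFN hFk (noPLayer_of_perfect hkF hper hN),
    dim_two hkF hFN hper hN⟩, fun hmin ℓ hℓ hne hdvd => ?_⟩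
  · have hF : Bdd p S R F := hab F (fd_of_le hN hFN) (hNr.of_le hFN) hFa
    refine ⟨fun E hE => ⟨hNr.of_le hE, ?_⟩, fun hd0 => ?_⟩
    · by_cases hEb : Bdd p S R E
      · exact Or.inl hEb
      · exact Or.inr (gap F' hF' d hd hF E hE hEb)
    · rw [criterion hp2 hS hR hN hkF hNk hF' hd hd0]
      exact ⟨fun h => h.2, fun h => ⟨hF, h⟩⟩
  · obtain ⟨h1, h2⟩ := minimal_layer (p := p) hkF hFN hNk hFk hN hmin hℓ hne hdvd
    exact ⟨IsPLayer.self hFN hFk h1, h2⟩

end Pool.Agent.Results.MP_4e64b4_nt.GrowthGapH53
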