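import Pool.Agent.V7H53.TR.Main

/-!
# MP_4e64b4_nt: the vanishing of `μ` for totally real fields and tight fields, level by level

Let `p` be an odd prime, and let `R m` be the subfield of degree `p ^ m` of the field of the roots of
unity of order `p ^ (m + 1)`. Number fields are subfields `F` of finite degree of the field of
algebraic numbers, and `F ⊔ R m` is the `m`-th layer of the cyclotomic `ℤ_p`-extension of `F` (up to
a shift). Let `S` be a set of prime numbers, for instance a finite set which contains `p`, and let
`r_m(F)` be the `p`-rank of the Galois group of the maximal abelian extension of `F ⊔ R m` unramified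
at the finite primes outside `S` (archimedean places do not matter, as `p` is odd). So `r_m(F) ≤ r` means
that all finite abelian extensions of exponent `p` of `F ⊔ R m` unramified outside `S` have degree at
most `p ^ r` (`PRankLe`).

If `S` is finite and contains `p`, and `X` is the Iwasawa module of the problem, then
`r_m(F) - 1 = dim X / (p, ω_m) X`, where `ω_m = (1 + T) ^ (p ^ m) - 1` (up to the shift of the levels). So
for totally real `F`, by Nakayama's lemma, `μ_p(F) = 0` if and only if the numbers `r_m(F)` are bounded
(`Bdd p S R F`); and `r_m(F) = g(F) p ^ m + O(1)` if `g(F)` is the number of the factors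
`Λ / (p ^ (m_i))` with `m_i > 0` in the structure theorem for `X` (up to the shift). These facts are not
used and not proved here.

A field `F` is *tight* if for some irreducible representation `V` of `Gal(ℚ^al/ℚ)` over `𝔽_p` with
finite image there are nonzero vectors fixed by `Gal(ℚ^al/F)`, and all of them generate `F` (their
stabilizers are `Gal(ℚ^al/F)`). For `p ≥ 5` the smallest tight fields which are not abelian are the
cubic fields which are not Galois.
-/

set_option autoImplicit false

namespace Pool.Agent.Results.MP_4e64b4_nt.TotallyRealTightH53

open Module IntermediateField Pool.Agent.Q60.MU Pool.Agent.V7H44.MF Pool.Agent.V7H53.TR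

/-- **The ranks of the `S`-ramified Iwasawa modules and the tight fields of degree prime to `p`.**

(1) For every Galois extension `N / ℚ` there are constants `a`, `b` such that for all subfields `F` of
`N`, all levels `m` and all `r`: if `r_m(E) ≤ r` for all tight subfields `E` of `N` of degree prime to
`p`, then `r_m(F) ≤ a r + b`; and if `r_m(N) ≤ r` then `r_m(F) ≤ r + b`. So the rank of `N` is at every
level comparable with the largest rank of a tight subfield of degree prime to `p`.

(2) For every Galois extension `N / ℚ`: the ranks `r_m(N)` are bounded if and only if this is true for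
all tight subfields of `N` of degree prime to `p`; then it is true for all subfields of `N`. So, for a
totally real Galois extension `N / ℚ`, `μ_p(N) = 0` if and only if `μ_p(E) = 0` for the tight
subfields `E` of `N` of degree prime to `p`.

(3) `μ_p = 0` for all totally real fields if and only if `μ_p = 0` for the tight totally real fields of
degree prime to `p`.

(4) Given the theorem of Ferrero and Washington (`μ_p = 0` for totally real abelian fields, stated as
a hypothesis), `μ_p = 0` for all totally real fields if and only if `μ_p = 0` for the tight totally real
fields of degree prime to `p` which are not abelian.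

(5) A totally real field is contained in a totally real Galois extension of `ℚ`, so that (1) and (2)
apply; and subfields of totally real fields are totally real. -/
theorem result (p : ℕ) [Fact p.Prime] (hp2 : p ≠ 2) (S : Set ℕ)
    (R : ℕ → IntermediateField ℚ Qb) (hR : IsCyclotomicTower p R) :
    (∀ N : IntermediateField ℚ Qb, FiniteDimensional ℚ N → IsGalois ℚ N →
      ∃ a b : ℕ, ∀ F ≤ N, ∀ m r : ℕ,
        (TightRanksLe p S R N m r → PRankLe p S (F ⊔ R m) (a * r + b)) ∧
        (PRankLe p S (N ⊔ R m) r → PRankLe p S (F ⊔ R m) (r + b))) ∧
    (∀ N : IntermediateField ℚ Qb, FiniteDimensional ℚ N → IsGalois ℚ N →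
      (Bdd p S R N ↔ TightZeroBelow p S R N) ∧
      (TightZeroBelow p S R N → ∀ F ≤ N, Bdd p S R F)) ∧
    (AllReal p S R ↔ TightReal p S R) ∧
    (AbelianReal p S R → (AllReal p S R ↔ TightRealNonabelian p S R)) ∧
    (∀ F : IntermediateField ℚ Qb, FiniteDimensional ℚ F → IsReal F →
      ∃ N : IntermediateField ℚ Qb, FiniteDimensional ℚ N ∧ IsGalois ℚ N ∧ F ≤ N ∧ IsReal N) ∧
    ∀ F N : IntermediateField ℚ Qb, F ≤ N → IsReal N → IsReal F := by
  have main : AllReal p S R ↔ TightReal p S R := by
    constructor
    · exact fun h F hFr hF _ => h F (tight_finite hF) hFr
    · intro h F hF hFr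
      obtain ⟨N, hN, hNn, hFN, hNr⟩ := exists_real_closure F hF hFr
      exact tight_zero hp2 hR N hN hNn (fun E hE => h E (hNr.of_le hE.1) hE.2.1 hE.2.2) F hFN
  refine ⟨fun N hN hNn => tight_level hp2 S hR N hN hNn, fun N hN hNn =>
    ⟨⟨fun h E hE => bdd_down hp2 hR N hN hNn h E hE.1,
      fun h => tight_zero hp2 hR N hN hNn h N le_rfl⟩, tight_zero hp2 hR N hN hNn⟩, main,
    fun hFW => ?_, exists_real_closure, fun F N hF hN => hN.of_le hF⟩
  rw [main]
  constructor
  · exact fun h F h1 h2 h3 _ => h F h1 h2 h3
  · intro h F h1 h2 h3
    by_cases hab : IsAbelianField F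
    · exact hFW F (tight_finite h2) h1 hab
    · exact h F h1 h2 h3 hab

end Pool.Agent.Results.MP_4e64b4_nt.TotallyRealTightH53
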